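import Pool.Agent.Helper21.DL.TransKey
import Pool.Agent.Helper4.DL.Binom
import Pool.Agent.Helper31.DL.Spl

/-!
# DL-17: exact periodicity in one more degree

The two facts about `QQ` (DL-16) are hypotheses here.
-/

namespace Pool.Agent.DL

open MeasureTheory Finset


/-- the statement of `QQ_expand` (DL-16) -/
def ExpandStmt : Prop := ∀ {m s : ℕ} (_ : 1 ≤ s) (e : Fin m → ℕ) (b : Fin m → ℝ)
    (_ : ∀ i, 0 < b i) (S : Finset ℕ) (a : ℕ → ℂ),
    QQ s e b S a = ENNReal.ofReal (∑ p ∈ Fintype.piFinset (fun _ : Fin s => S),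
      ∑ q ∈ Fintype.piFinset (fun _ : Fin s => S),
        ((∏ l, a (p l)) * (starRingEnd ℂ) (∏ l, a (q l)) *
          ((∏ i, (b i)⁻¹ * spl (2 * s) (((∑ l, (p l : ℝ) ^ e i) - ∑ l, (q l : ℝ) ^ e i) / b i) :
            ℝ) : ℂ))).re

/-- the statement of `QQ_shift` (DL-16) -/
def ShiftStmt : Prop := ∀ {m s : ℕ} (_ : 1 ≤ s) (e : Fin m → ℕ) (b : Fin m → ℝ)
    (_ : ∀ i, 0 < b i) (S : Finset ℕ) (a : ℕ → ℂ) (c : Fin m → ℝ),
    ENNReal.ofReal ‖∑ p ∈ Fintype.piFinset (fun _ : Fin s => S),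
      ∑ q ∈ Fintype.piFinset (fun _ : Fin s => S),
        ((∏ l, a (p l)) * (starRingEnd ℂ) (∏ l, a (q l)) *
          ((∏ i, (b i)⁻¹ * spl (2 * s)
            (((∑ l, (p l : ℝ) ^ e i) - (∑ l, (q l : ℝ) ^ e i) - c i) / b i) : ℝ) : ℂ))‖ ≤
      QQ s e b S a

/-- the real form of the sums for nonnegative coefficients -/
noncomputable def TT {m s : ℕ} (e : Fin m → ℕ) (b : Fin m → ℝ) (S : Finset ℕ) (a : ℕ → ℝ)
    (c : Fin m → ℝ) : ℝ :=
  ∑ p ∈ Fintype.piFinset (fun _ : Fin s => S), ∑ q ∈ Fintype.piFinset (fun _ : Fin s => S),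
    (∏ l, a (p l)) * (∏ l, a (q l)) *
      (∏ i, (b i)⁻¹ * spl (2 * s) ((dlt p q (e i) - c i) / b i))

theorem TT_cast {m s : ℕ} (e : Fin m → ℕ) (b : Fin m → ℝ) (S : Finset ℕ) (a : ℕ → ℝ)
    (c : Fin m → ℝ) :
    (∑ p ∈ Fintype.piFinset (fun _ : Fin s => S),
      ∑ q ∈ Fintype.piFinset (fun _ : Fin s => S),
        ((∏ l, ((a (p l) : ℝ) : ℂ)) * (starRingEnd ℂ) (∏ l, ((a (q l) : ℝ) : ℂ)) *
          ((∏ i, (b i)⁻¹ * spl (2 * s)
            (((∑ l, (p l : ℝ) ^ e i) - (∑ l, (q l : ℝ) ^ e i) - c i) / b i) : ℝ) : ℂ))) =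
      ((TT (s := s) e b S a c : ℝ) : ℂ) := by
  unfold TT dlt
  push_cast
  refine Finset.sum_congr rfl (fun p _ => Finset.sum_congr rfl (fun q _ => ?_))
  rw [map_prod]
  simp only [Complex.conj_ofReal]

theorem QQ_eq_TT (hE : ExpandStmt) {m s : ℕ} (hs : 1 ≤ s) (e : Fin m → ℕ) (b : Fin m → ℝ)
    (hb : ∀ i, 0 < b i) (S : Finset ℕ) (a : ℕ → ℝ) :
    QQ s e b S (fun j => (a j : ℂ)) = ENNReal.ofReal (TT (s := s) e b S a 0) := by
  rw [hE hs e b hb S]
  congr 1
  have h := TT_cast (s := s) e b S a 0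
  simp only [Pi.zero_apply, sub_zero] at h
  rw [h]
  exact Complex.ofReal_re _

theorem TT_le_QQ (hSh : ShiftStmt) {m s : ℕ} (hs : 1 ≤ s) (e : Fin m → ℕ) (b : Fin m → ℝ)
    (hb : ∀ i, 0 < b i) (S : Finset ℕ) (a : ℕ → ℝ) (c : Fin m → ℝ) :
    ENNReal.ofReal (TT (s := s) e b S a c) ≤ QQ s e b S (fun j => (a j : ℂ)) := by
  refine le_trans ?_ (hSh hs e b hb S (fun j => (a j : ℂ)) c)
  refine ENNReal.ofReal_le_ofReal ?_
  rw [TT_cast (s := s) e b S a c]
  rw [Complex.norm_real]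
  exact le_abs_self _

theorem ex_injective (k r m : ℕ) : Function.Injective (ex k r m) := by
  intro i j h
  unfold ex at h
  apply Fin.ext
  split_ifs at h <;> omega

theorem one_le_ex (k r m : ℕ) (j : Fin m) : 1 ≤ ex k r m j := by
  unfold ex
  split_ifs <;> omega

theorem bb_pos {L R : ℝ} (hL : 0 < L) (hR : 0 < R) (r m : ℕ) (i : Fin m) : 0 < bb L R r m i := by
  unfold bb
  split_ifs
  · positivity
  · exact hL

theorem dlt_int {s : ℕ} (p q : Fin s → ℕ) (e : ℕ) : ∃ z : ℤ, dlt p q e = z := by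
  refine ⟨(∑ l, (p l : ℤ) ^ e) - ∑ l, (q l : ℤ) ^ e, ?_⟩
  unfold dlt
  push_cast
  rfl

theorem transition_of (hE : ExpandStmt) (hSh : ShiftStmt) (m k r : ℕ) (hr : r < m) (C₀ : ℝ) : ∃ K : ℝ, 0 < K ∧
    ∀ (N n₀ H : ℕ), 1 ≤ N → N ≤ 4 * n₀ → n₀ + H ≤ N → (H : ℝ) ^ (m + 1) ≤ C₀ * (N : ℝ) ^ (m - r) →
      ∀ S ⊆ Finset.Ioc n₀ (n₀ + H), ∀ a : ℕ → ℝ, (∀ j, 0 ≤ a j) → ∀ R : ℝ, (tri m : ℝ) ≤ R → 1 ≤ R →
        QQ (tri m) (ex k r m) (bb ((N : ℝ) ^ k) R r m) S (fun j => (a j : ℂ)) *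
            ENNReal.ofReal (R * (N : ℝ) ^ k) ≤
          ENNReal.ofReal K *
            QQ (tri m) (ex k (r + 1) m) (bb ((N : ℝ) ^ k) R (r + 1) m) S (fun j => (a j : ℂ)) := by
  have hs : 1 ≤ tri m := by
    unfold tri
    have : 1 * (1 + 1) ≤ m * (m + 1) := Nat.mul_le_mul (by omega) (by omega)
    omega
  set s := tri m with hsdef
  obtain ⟨K0, hK0, hkey⟩ := trans_key m k r s hr C₀
    (binom_det (ex k r m) (ex_injective k r m) (one_le_ex k r m))
  have h2s : 2 ≤ 2 * s := by omega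
  have hspl := spl_pos h2s (even_two_mul s)
  set V : ℕ := ⌈K0⌉₊ with hV
  have hVK : K0 ≤ V := Nat.le_ceil _
  refine ⟨(2 * V + 1) * (spl (2 * s) 0)⁻¹, by positivity, ?_⟩
  intro N n₀ H hN h4 hH hHC S hS a ha R hRs hR1
  have hN' : (0 : ℝ) < N := by exact_mod_cast hN
  have hL : (0 : ℝ) < (N : ℝ) ^ k := pow_pos hN' _
  have hR0 : (0 : ℝ) < R := by linarith
  set L : ℝ := (N : ℝ) ^ k with hLdef
  have hb1 := bb_pos hL hR0 r m
  have hb2 := bb_pos hL hR0 (r + 1) m
  set ρ : Fin m := ⟨r, hr⟩ with hρ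
  -- the shifts
  set cc : ℤ → Fin m → ℝ := fun z => Pi.single ρ (z : ℝ) with hcc
  have main : TT (s := s) (ex k r m) (bb L R r m) S a 0 * (R * L) ≤
      ∑ z ∈ Icc (-(V : ℤ)) V, (spl (2 * s) 0)⁻¹ *
        TT (s := s) (ex k (r + 1) m) (bb L R (r + 1) m) S a (cc z) := by
    unfold TT
    rw [Finset.sum_mul]
    simp_rw [Finset.mul_sum]
    rw [Finset.sum_comm]
    refine Finset.sum_le_sum (fun p hp => ?_)
    rw [Finset.sum_mul, Finset.sum_comm]
    refine Finset.sum_le_sum (fun q hq => ?_)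
    rw [Fintype.mem_piFinset] at hp hq
    have hp' : ∀ l, p l ∈ Ioc n₀ (n₀ + H) := fun l => hS (hp l)
    have hq' : ∀ l, q l ∈ Ioc n₀ (n₀ + H) := fun l => hS (hq l)
    have hA : 0 ≤ (∏ l, a (p l)) * (∏ l, a (q l)) :=
      mul_nonneg (Finset.prod_nonneg (fun l _ => ha _)) (Finset.prod_nonneg (fun l _ => ha _))
    -- the common factor
    set G : ℝ := ∏ i ∈ univ.erase ρ, (bb L R r m i)⁻¹ *
      spl (2 * s) (dlt p q (ex k r m i) / bb L R r m i) with hG
    have hterm : ∀ i, 0 ≤ (bb L R r m i)⁻¹ *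
        spl (2 * s) (dlt p q (ex k r m i) / bb L R r m i) := fun i =>
      mul_nonneg (inv_nonneg.mpr (hb1 i).le) (spl_nonneg h2s _)
    have hG0 : 0 ≤ G := Finset.prod_nonneg (fun i _ => hterm i)
    have hleft : (∏ i, (bb L R r m i)⁻¹ *
        spl (2 * s) ((dlt p q (ex k r m i) - (0 : Fin m → ℝ) i) / bb L R r m i)) =
        (L⁻¹ * spl (2 * s) (dlt p q (k + r + 1) / L)) * G := by
      simp only [Pi.zero_apply, sub_zero]
      rw [hG, ← Finset.mul_prod_erase univ _ (Finset.mem_univ ρ)]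
      congr 1
      have e1 : bb L R r m ρ = L := by simp [bb, hρ]
      have e2 : ex k r m ρ = k + r + 1 := by simp [ex, hρ]
      rw [e1, e2]
    have hright : ∀ z : ℤ, (∏ i, (bb L R (r + 1) m i)⁻¹ *
        spl (2 * s) ((dlt p q (ex k (r + 1) m i) - cc z i) / bb L R (r + 1) m i)) =
        (R * spl (2 * s) ((dlt p q (r + 1) - z) * R)) * G := by
      intro z
      rw [hG, ← Finset.mul_prod_erase univ _ (Finset.mem_univ ρ)]
      congr 1
      · have e1 : bb L R (r + 1) m ρ = 1 / R := by simp [bb, hρ]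
        have e2 : ex k (r + 1) m ρ = r + 1 := by simp [ex, hρ]
        have e3 : cc z ρ = z := by simp [hcc]
        rw [e1, e2, e3, one_div, inv_inv, div_inv_eq_mul]
      · refine Finset.prod_congr rfl (fun i hi => ?_)
        have hne : i ≠ ρ := Finset.ne_of_mem_erase hi
        have hne' : (i : ℕ) ≠ r := fun h => hne (Fin.ext h)
        have e3 : cc z i = 0 := by simp [hcc, hne]
        have e1 : bb L R (r + 1) m i = bb L R r m i := by
          unfold bb
          by_cases h : (i : ℕ) < r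
          · rw [if_pos h, if_pos (by omega)]
          · rw [if_neg h, if_neg (by omega)]
        have e2 : ex k (r + 1) m i = ex k r m i := by
          unfold ex
          by_cases h : (i : ℕ) < r
          · rw [if_pos h, if_pos (by omega)]
          · rw [if_neg h, if_neg (by omega)]
        rw [e1, e2, e3, sub_zero]
    rw [hleft]
    simp_rw [hright]
    have hnn : ∀ z ∈ Icc (-(V : ℤ)) V, 0 ≤ (spl (2 * s) 0)⁻¹ * ((∏ l, a (p l)) *
        (∏ l, a (q l)) * ((R * spl (2 * s) ((dlt p q (r + 1) - z) * R)) * G)) := by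
      intro z _
      have := spl_nonneg h2s ((dlt p q (r + 1) - z) * R)
      positivity
    by_cases hzero : spl (2 * s) (dlt p q (k + r + 1) / L) * G = 0
    · have : (∏ l, a (p l)) * (∏ l, a (q l)) * ((L⁻¹ *
          spl (2 * s) (dlt p q (k + r + 1) / L)) * G) * (R * L) = 0 := by
        rw [mul_assoc L⁻¹, hzero]; ring
      rw [this]
      exact Finset.sum_nonneg hnn
    · have hne1 : spl (2 * s) (dlt p q (k + r + 1) / L) ≠ 0 := left_ne_zero_of_mul hzero
      have hne2 : G ≠ 0 := right_ne_zero_of_mul hzero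
      have hne3 : ∀ i : Fin m, spl (2 * s) (dlt p q (ex k r m i) / bb L R r m i) ≠ 0 := by
        intro i
        by_cases hi : i = ρ
        · subst hi
          have e1 : bb L R r m ρ = L := by simp [bb, hρ]
          have e2 : ex k r m ρ = k + r + 1 := by simp [ex, hρ]
          rw [e1, e2]; exact hne1
        · rw [hG] at hne2
          have := Finset.prod_ne_zero_iff.mp hne2 i (Finset.mem_erase.mpr ⟨hi, Finset.mem_univ _⟩)
          exact right_ne_zero_of_mul this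
      have hlt : ∀ i : Fin m, |dlt p q (ex k r m i)| < s * bb L R r m i := by
        intro i
        by_contra hcon
        push Not at hcon
        refine hne3 i (spl_zero h2s ?_)
        rw [abs_div, abs_of_pos (hb1 i), le_div_iff₀ (hb1 i)]
        push_cast
        linarith
      have hz : ∀ j : Fin m, (j : ℕ) < r → dlt p q (j + 1) = 0 := by
        intro j hj
        have h1 := hlt j
        have e1 : bb L R r m j = 1 / R := by simp [bb, hj]
        have e2 : ex k r m j = j + 1 := by simp [ex, hj]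
        rw [e1, e2] at h1
        have h2 : (s : ℝ) * (1 / R) ≤ 1 := by
          rw [mul_one_div, div_le_one hR0]; exact hRs
        obtain ⟨z, hz⟩ := dlt_int p q (j + 1)
        rw [hz] at h1 ⊢
        have h3 : |(z : ℝ)| < 1 := lt_of_lt_of_le h1 h2
        have h4 : |z| < 1 := by exact_mod_cast h3
        rw [Int.abs_lt_one_iff] at h4
        simp [h4]
      have hs' : ∀ j : Fin m, r ≤ (j : ℕ) → |dlt p q (k + j + 1)| ≤ s * (N : ℝ) ^ k := by
        intro j hj
        have h1 := hlt j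
        have e1 : bb L R r m j = L := by unfold bb; rw [if_neg (by omega)]
        have e2 : ex k r m j = k + j + 1 := by unfold ex; rw [if_neg (by omega)]
        rw [e1, e2] at h1
        exact h1.le
      have hD := hkey N n₀ H hN h4 hH hHC p q hp' hq' hz hs'
      obtain ⟨z, hz'⟩ := dlt_int p q (r + 1)
      have hzV : z ∈ Icc (-(V : ℤ)) V := by
        rw [hz'] at hD
        have h1 : |(z : ℝ)| ≤ V := hD.trans hVK
        have h2 : |z| ≤ (V : ℤ) := by exact_mod_cast h1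
        rw [Finset.mem_Icc]
        exact abs_le.mp h2
      refine le_trans ?_ (Finset.single_le_sum hnn hzV)
      have e0 : (dlt p q (r + 1) - z) * R = 0 := by rw [hz']; ring
      rw [e0]
      have e4 : (spl (2 * s) 0)⁻¹ * ((∏ l, a (p l)) * (∏ l, a (q l)) *
          ((R * spl (2 * s) 0) * G)) = (∏ l, a (p l)) * (∏ l, a (q l)) * (R * G) := by
        field_simp
      rw [e4]
      have e5 : (∏ l, a (p l)) * (∏ l, a (q l)) * ((L⁻¹ *
          spl (2 * s) (dlt p q (k + r + 1) / L)) * G) * (R * L) =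
          (∏ l, a (p l)) * (∏ l, a (q l)) *
            (R * (spl (2 * s) (dlt p q (k + r + 1) / L) * G)) := by
        field_simp
      rw [e5]
      refine mul_le_mul_of_nonneg_left ?_ hA
      refine mul_le_mul_of_nonneg_left ?_ hR0.le
      calc spl (2 * s) (dlt p q (k + r + 1) / L) * G ≤ 1 * G :=
            mul_le_mul_of_nonneg_right (spl_le h2s _) hG0
        _ = G := one_mul G
  rw [QQ_eq_TT hE hs _ _ hb1 S a, ← ENNReal.ofReal_mul' (by positivity)]
  calc ENNReal.ofReal (TT (s := s) (ex k r m) (bb L R r m) S a 0 * (R * L))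
      ≤ ENNReal.ofReal (∑ z ∈ Icc (-(V : ℤ)) V, (spl (2 * s) 0)⁻¹ *
        TT (s := s) (ex k (r + 1) m) (bb L R (r + 1) m) S a (cc z)) :=
        ENNReal.ofReal_le_ofReal main
    _ ≤ ∑ z ∈ Icc (-(V : ℤ)) V, ENNReal.ofReal ((spl (2 * s) 0)⁻¹ *
        TT (s := s) (ex k (r + 1) m) (bb L R (r + 1) m) S a (cc z)) := by
        refine (ENNReal.ofReal_le_ofReal (Finset.sum_le_sum (fun z _ => le_max_left _ 0))).trans ?_
        rw [ENNReal.ofReal_sum_of_nonneg (fun z _ => le_max_right _ _)]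
        refine Finset.sum_le_sum (fun z _ => ?_)
        rcases le_total 0 ((spl (2 * s) 0)⁻¹ *
          TT (s := s) (ex k (r + 1) m) (bb L R (r + 1) m) S a (cc z)) with h | h
        · rw [max_eq_left h]
        · rw [max_eq_right h]; simp
    _ ≤ ∑ z ∈ Icc (-(V : ℤ)) V, ENNReal.ofReal ((spl (2 * s) 0)⁻¹) *
        QQ s (ex k (r + 1) m) (bb L R (r + 1) m) S (fun j => (a j : ℂ)) := by
        refine Finset.sum_le_sum (fun z _ => ?_)
        rw [ENNReal.ofReal_mul (by positivity)]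
        gcongr
        exact TT_le_QQ hSh hs _ _ hb2 S a (cc z)
    _ = ENNReal.ofReal ((2 * V + 1) * (spl (2 * s) 0)⁻¹) *
        QQ s (ex k (r + 1) m) (bb L R (r + 1) m) S (fun j => (a j : ℂ)) := by
        rw [Finset.sum_const, nsmul_eq_mul, ENNReal.ofReal_mul (by positivity), mul_assoc]
        congr 1
        have : (Icc (-(V : ℤ)) V).card = 2 * V + 1 := by
          rw [Int.card_Icc]; omega
        rw [this]
        rw [ENNReal.ofReal_add (by positivity) (by norm_num)]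
        rw [ENNReal.ofReal_mul (by norm_num)]
        simp

end Pool.Agent.DL
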