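import Pool.Agent.Helper3.DL.Defs

/-!
# Exact periodicity in one more degree: the linear algebra

Auxiliary file for DL-17.
-/

namespace Pool.Agent.DL

open MeasureTheory Finset

/-- difference of power sums -/
noncomputable def dlt {s : ℕ} (p q : Fin s → ℕ) (e : ℕ) : ℝ :=
  (∑ l, (p l : ℝ) ^ e) - ∑ l, (q l : ℝ) ^ e

/-- difference of shifted power sums -/
noncomputable def dlt0 {s : ℕ} (n₀ : ℕ) (p q : Fin s → ℕ) (e : ℕ) : ℝ :=
  (∑ l, ((p l : ℝ) - n₀) ^ e) - ∑ l, ((q l : ℝ) - n₀) ^ e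

theorem dlt_expand {s : ℕ} (n₀ : ℕ) (p q : Fin s → ℕ) (e : ℕ) :
    dlt p q e = ∑ i ∈ range e, ((e.choose (i + 1) : ℕ) : ℝ) * (n₀ : ℝ) ^ (e - (i + 1)) *
      dlt0 n₀ p q (i + 1) := by
  have h1 : ∀ x : ℝ, x ^ e = ∑ i ∈ range (e + 1), (x - n₀) ^ i * (n₀ : ℝ) ^ (e - i) *
      ((e.choose i : ℕ) : ℝ) := by
    intro x
    have := add_pow (x - n₀) (n₀ : ℝ) e
    rw [sub_add_cancel] at this
    exact this
  have h2 : ∀ (p : Fin s → ℕ), (∑ l, (p l : ℝ) ^ e) =
      ∑ i ∈ range (e + 1), ((e.choose i : ℕ) : ℝ) * (n₀ : ℝ) ^ (e - i) *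
        ∑ l, ((p l : ℝ) - n₀) ^ i := by
    intro p
    rw [Finset.sum_congr rfl (fun l _ => h1 (p l)), Finset.sum_comm]
    refine Finset.sum_congr rfl (fun i _ => ?_)
    rw [Finset.mul_sum]
    refine Finset.sum_congr rfl (fun l _ => ?_)
    ring
  unfold dlt
  rw [h2 p, h2 q, ← Finset.sum_sub_distrib, Finset.sum_range_succ']
  have h0 : ((e.choose 0 : ℕ) : ℝ) * (n₀ : ℝ) ^ (e - 0) * ∑ l, ((p l : ℝ) - n₀) ^ 0 -
      ((e.choose 0 : ℕ) : ℝ) * (n₀ : ℝ) ^ (e - 0) * ∑ l, ((q l : ℝ) - n₀) ^ 0 = 0 := by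
    simp
  rw [h0, add_zero]
  refine Finset.sum_congr rfl (fun i _ => ?_)
  unfold dlt0
  ring

theorem dlt0_le {s n₀ H : ℕ} (p q : Fin s → ℕ) (hp : ∀ l, p l ∈ Ioc n₀ (n₀ + H))
    (hq : ∀ l, q l ∈ Ioc n₀ (n₀ + H)) (e : ℕ) : |dlt0 n₀ p q e| ≤ s * (H : ℝ) ^ e := by
  have key : ∀ (p : Fin s → ℕ), (∀ l, p l ∈ Ioc n₀ (n₀ + H)) →
      0 ≤ (∑ l, ((p l : ℝ) - n₀) ^ e) ∧ (∑ l, ((p l : ℝ) - n₀) ^ e) ≤ s * (H : ℝ) ^ e := by
    intro p hp
    have hb : ∀ l, 0 ≤ (p l : ℝ) - n₀ ∧ (p l : ℝ) - n₀ ≤ H := by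
      intro l
      have := Finset.mem_Ioc.mp (hp l)
      have h1 : (n₀ : ℝ) < p l := by exact_mod_cast this.1
      have h2 : (p l : ℝ) ≤ n₀ + H := by exact_mod_cast this.2
      constructor <;> linarith
    refine ⟨Finset.sum_nonneg (fun l _ => pow_nonneg (hb l).1 _), ?_⟩
    calc (∑ l, ((p l : ℝ) - n₀) ^ e) ≤ ∑ _l : Fin s, (H : ℝ) ^ e :=
          Finset.sum_le_sum (fun l _ => pow_le_pow_left₀ (hb l).1 (hb l).2 _)
      _ = s * (H : ℝ) ^ e := by simp
  obtain ⟨a1, a2⟩ := key p hp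
  obtain ⟨b1, b2⟩ := key q hq
  unfold dlt0
  rw [abs_le]
  constructor <;> linarith

/-- the normalised differences -/
noncomputable def dd {s : ℕ} (n₀ : ℕ) (p q : Fin s → ℕ) (i : ℕ) : ℝ :=
  dlt0 n₀ p q (i + 1) / (n₀ : ℝ) ^ (i + 1)

theorem dlt_eq_dd {s : ℕ} {n₀ : ℕ} (hn : 0 < n₀) (p q : Fin s → ℕ) {e M : ℕ} (hM : e ≤ M) :
    dlt p q e = (n₀ : ℝ) ^ e * ∑ i ∈ range M, ((e.choose (i + 1) : ℕ) : ℝ) * dd n₀ p q i := by
  have hn' : (n₀ : ℝ) ≠ 0 := by exact_mod_cast hn.ne'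
  have h1 : ∑ i ∈ range M, ((e.choose (i + 1) : ℕ) : ℝ) * dd n₀ p q i =
      ∑ i ∈ range e, ((e.choose (i + 1) : ℕ) : ℝ) * dd n₀ p q i := by
    symm
    refine Finset.sum_subset (Finset.range_subset_range.mpr hM) (fun i _ hi => ?_)
    rw [Finset.mem_range, not_lt] at hi
    rw [Nat.choose_eq_zero_of_lt (by omega)]
    simp
  rw [h1, dlt_expand n₀, Finset.mul_sum]
  refine Finset.sum_congr rfl (fun i hi => ?_)
  rw [Finset.mem_range] at hi
  unfold dd
  have h2 : (n₀ : ℝ) ^ e = (n₀ : ℝ) ^ (e - (i + 1)) * (n₀ : ℝ) ^ (i + 1) := by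
    rw [← pow_add]; congr 1; omega
  rw [h2]
  field_simp

theorem trans_key (m k r s : ℕ) (hr : r < m) (C₀ : ℝ)
    (hdet : (Matrix.of fun j i : Fin m =>
      (((ex k r m j).choose ((i : ℕ) + 1) : ℕ) : ℝ)).det ≠ 0) : ∃ K0 : ℝ, 0 ≤ K0 ∧
    ∀ (N n₀ H : ℕ), 1 ≤ N → N ≤ 4 * n₀ → n₀ + H ≤ N → (H : ℝ) ^ (m + 1) ≤ C₀ * (N : ℝ) ^ (m - r) →
      ∀ p q : Fin s → ℕ, (∀ l, p l ∈ Ioc n₀ (n₀ + H)) → (∀ l, q l ∈ Ioc n₀ (n₀ + H)) →
        (∀ j : Fin m, (j : ℕ) < r → dlt p q (j + 1) = 0) →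
        (∀ j : Fin m, r ≤ (j : ℕ) → |dlt p q (k + j + 1)| ≤ s * (N : ℝ) ^ k) →
          |dlt p q (r + 1)| ≤ K0 := by
  set B : Matrix (Fin m) (Fin m) ℝ := Matrix.of fun j i : Fin m =>
      (((ex k r m j).choose ((i : ℕ) + 1) : ℕ) : ℝ) with hB
  set C₁ : ℝ := s * 4 ^ (k + m) + k * (2 ^ (k + m) * (s * (4 ^ (k + m) * |C₀|))) with hC₁
  have hC₁0 : 0 ≤ C₁ := by positivity
  set C₂ : ℝ := (∑ i, ∑ j, |B⁻¹ i j|) * C₁ with hC₂
  have hsum0 : 0 ≤ ∑ i, ∑ j, |B⁻¹ i j| :=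
    Finset.sum_nonneg (fun i _ => Finset.sum_nonneg (fun j _ => abs_nonneg _))
  have hC₂0 : 0 ≤ C₂ := mul_nonneg hsum0 hC₁0
  refine ⟨m * (2 ^ (r + 1) * C₂), by positivity, ?_⟩
  intro N n₀ H hN h4 hH hHC p q hp hq hz hs
  have hn0 : 0 < n₀ := by omega
  have hn0' : (0 : ℝ) < n₀ := by exact_mod_cast hn0
  have hN' : (0 : ℝ) < N := by exact_mod_cast hN
  have hN1 : (1 : ℝ) ≤ N := by exact_mod_cast hN
  have h4' : (N : ℝ) ≤ 4 * n₀ := by exact_mod_cast h4
  have hnN : (n₀ : ℝ) ≤ N := by exact_mod_cast (le_trans (Nat.le_add_right _ _) hH)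
  have hHN : (H : ℝ) ≤ N := by exact_mod_cast (le_trans (Nat.le_add_left _ _) hH)
  have hH0 : (0 : ℝ) ≤ H := by positivity
  -- size of the normalised differences
  have hdd : ∀ i, |dd n₀ p q i| ≤ s * (4 * (H / N)) ^ (i + 1) := by
    intro i
    unfold dd
    rw [abs_div, abs_of_pos (pow_pos hn0' (i + 1))]
    rw [div_le_iff₀ (pow_pos hn0' _)]
    refine (dlt0_le p q hp hq (i + 1)).trans ?_
    rw [mul_assoc]
    refine mul_le_mul_of_nonneg_left ?_ (by positivity)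
    rw [← mul_pow]
    refine pow_le_pow_left₀ hH0 ?_ _
    rw [show 4 * ((H : ℝ) / N) * n₀ = H * ((4 * n₀) / N) by ring]
    have : 1 ≤ (4 * (n₀ : ℝ)) / N := by rw [le_div_iff₀ hN']; linarith
    calc (H : ℝ) = H * 1 := by ring
      _ ≤ _ := mul_le_mul_of_nonneg_left this hH0
  have htail : ∀ i, i < k → |dd n₀ p q (m + i)| * (N : ℝ) ^ (r + 1) ≤
      s * (4 ^ (k + m) * |C₀|) := by
    intro i hi
    have hq1 : (H : ℝ) / N ≤ 1 := by rw [div_le_one hN']; exact hHN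
    have hq0 : 0 ≤ (H : ℝ) / N := by positivity
    have h1 : ((H : ℝ) / N) ^ (m + i + 1) ≤ ((H : ℝ) / N) ^ (m + 1) :=
      pow_le_pow_of_le_one hq0 hq1 (by omega)
    have h2 : ((H : ℝ) / N) ^ (m + 1) * (N : ℝ) ^ (r + 1) ≤ |C₀| := by
      rw [div_pow, div_mul_eq_mul_div, div_le_iff₀ (pow_pos hN' _)]
      calc (H : ℝ) ^ (m + 1) * (N : ℝ) ^ (r + 1) ≤ (C₀ * (N : ℝ) ^ (m - r)) * (N : ℝ) ^ (r + 1) :=
            mul_le_mul_of_nonneg_right hHC (by positivity)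
        _ ≤ (|C₀| * (N : ℝ) ^ (m - r)) * (N : ℝ) ^ (r + 1) := by
            refine mul_le_mul_of_nonneg_right ?_ (by positivity)
            exact mul_le_mul_of_nonneg_right (le_abs_self _) (by positivity)
        _ = |C₀| * (N : ℝ) ^ (m + 1) := by
            rw [mul_assoc, ← pow_add]; congr 2; omega
    have h3 : (4 : ℝ) ^ (m + i + 1) ≤ 4 ^ (k + m) := pow_le_pow_right₀ (by norm_num) (by omega)
    calc |dd n₀ p q (m + i)| * (N : ℝ) ^ (r + 1)
        ≤ (s * (4 * ((H : ℝ) / N)) ^ (m + i + 1)) * (N : ℝ) ^ (r + 1) :=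
          mul_le_mul_of_nonneg_right (hdd _) (by positivity)
      _ = s * (4 ^ (m + i + 1) * (((H : ℝ) / N) ^ (m + i + 1) * (N : ℝ) ^ (r + 1))) := by
          rw [mul_pow]; ring
      _ ≤ s * (4 ^ (k + m) * |C₀|) := by
          refine mul_le_mul_of_nonneg_left ?_ (by positivity)
          refine mul_le_mul h3 ?_ (by positivity) (by positivity)
          exact (mul_le_mul_of_nonneg_right h1 (by positivity)).trans h2
  -- the rows
  have hexle : ∀ j : Fin m, ex k r m j ≤ m + k := by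
    intro j
    have := j.2
    unfold ex
    split_ifs <;> omega
  have hrow : ∀ j : Fin m, |∑ i : Fin m, B j i * dd n₀ p q i| * (N : ℝ) ^ (r + 1) ≤ C₁ := by
    intro j
    have hj := j.2
    have e1 : ∑ i : Fin m, B j i * dd n₀ p q i =
        ∑ i ∈ range m, (((ex k r m j).choose (i + 1) : ℕ) : ℝ) * dd n₀ p q i := by
      rw [Finset.sum_range]
      rfl
    have e2 := dlt_eq_dd hn0 p q (hexle j)
    rw [Finset.sum_range_add] at e2
    rw [← e1] at e2
    by_cases hjr : (j : ℕ) < r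
    · have e3 : ex k r m j = j + 1 := by unfold ex; rw [if_pos hjr]
      have e4 : ∑ i ∈ range k, (((ex k r m j).choose (m + i + 1) : ℕ) : ℝ) *
          dd n₀ p q (m + i) = 0 := by
        refine Finset.sum_eq_zero (fun i _ => ?_)
        rw [e3, Nat.choose_eq_zero_of_lt (by omega)]
        simp
      rw [e4, add_zero, e3, hz j hjr] at e2
      have e5 : ∑ i : Fin m, B j i * dd n₀ p q i = 0 := by
        rcases mul_eq_zero.mp e2.symm with h | h
        · exact absurd h (by positivity)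
        · exact h
      rw [e5]
      simpa using hC₁0
    · push Not at hjr
      have e3 : ex k r m j = k + j + 1 := by unfold ex; rw [if_neg (by omega)]
      have e6 : ∑ i : Fin m, B j i * dd n₀ p q i = dlt p q (k + j + 1) / (n₀ : ℝ) ^ (k + j + 1) -
          ∑ i ∈ range k, (((ex k r m j).choose (m + i + 1) : ℕ) : ℝ) * dd n₀ p q (m + i) := by
        rw [e3] at e2 ⊢
        rw [e2]
        field_simp
        ring
      have b1 : |dlt p q (k + j + 1) / (n₀ : ℝ) ^ (k + j + 1)| * (N : ℝ) ^ (r + 1) ≤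
          s * 4 ^ (k + m) := by
        rw [abs_div, abs_of_pos (pow_pos hn0' (k + j + 1)), div_mul_eq_mul_div,
          div_le_iff₀ (pow_pos hn0' _)]
        calc |dlt p q (k + j + 1)| * (N : ℝ) ^ (r + 1)
            ≤ (s * (N : ℝ) ^ k) * (N : ℝ) ^ (r + 1) :=
              mul_le_mul_of_nonneg_right (hs j hjr) (by positivity)
          _ = s * (N : ℝ) ^ (k + (r + 1)) := by rw [mul_assoc, ← pow_add]
          _ ≤ s * (N : ℝ) ^ (k + j + 1) := by
              refine mul_le_mul_of_nonneg_left ?_ (by positivity)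
              exact pow_le_pow_right₀ hN1 (by omega)
          _ ≤ s * (4 * n₀) ^ (k + j + 1) := by
              refine mul_le_mul_of_nonneg_left ?_ (by positivity)
              exact pow_le_pow_left₀ hN'.le h4' _
          _ = s * 4 ^ (k + j + 1) * (n₀ : ℝ) ^ (k + j + 1) := by rw [mul_pow]; ring
          _ ≤ s * 4 ^ (k + m) * (n₀ : ℝ) ^ (k + j + 1) := by
              refine mul_le_mul_of_nonneg_right ?_ (by positivity)
              refine mul_le_mul_of_nonneg_left ?_ (by positivity)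
              exact pow_le_pow_right₀ (by norm_num) (by omega)
      have b2 : |∑ i ∈ range k, (((ex k r m j).choose (m + i + 1) : ℕ) : ℝ) *
          dd n₀ p q (m + i)| * (N : ℝ) ^ (r + 1) ≤
          k * (2 ^ (k + m) * (s * (4 ^ (k + m) * |C₀|))) := by
        calc |∑ i ∈ range k, (((ex k r m j).choose (m + i + 1) : ℕ) : ℝ) *
              dd n₀ p q (m + i)| * (N : ℝ) ^ (r + 1)
            ≤ (∑ i ∈ range k, |(((ex k r m j).choose (m + i + 1) : ℕ) : ℝ) *
              dd n₀ p q (m + i)|) * (N : ℝ) ^ (r + 1) :=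
              mul_le_mul_of_nonneg_right (Finset.abs_sum_le_sum_abs _ _) (by positivity)
          _ = ∑ i ∈ range k, |(((ex k r m j).choose (m + i + 1) : ℕ) : ℝ) *
              dd n₀ p q (m + i)| * (N : ℝ) ^ (r + 1) := by rw [Finset.sum_mul]
          _ ≤ ∑ i ∈ range k, (2 ^ (k + m) * (s * (4 ^ (k + m) * |C₀|))) := by
              refine Finset.sum_le_sum (fun i hi => ?_)
              rw [Finset.mem_range] at hi
              rw [abs_mul, mul_assoc]
              refine mul_le_mul ?_ (htail i hi) (by positivity) (by positivity)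
              rw [abs_of_nonneg (by positivity)]
              have c1 : (ex k r m j).choose (m + i + 1) ≤ 2 ^ (k + m) := by
                refine (Nat.choose_le_two_pow _ _).trans ?_
                refine Nat.pow_le_pow_right (by norm_num) ?_
                have := hexle j
                omega
              exact_mod_cast c1
          _ = _ := by simp
      rw [e6]
      calc _ ≤ (|dlt p q (k + j + 1) / (n₀ : ℝ) ^ (k + j + 1)| +
            |∑ i ∈ range k, (((ex k r m j).choose (m + i + 1) : ℕ) : ℝ) *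
              dd n₀ p q (m + i)|) * (N : ℝ) ^ (r + 1) :=
            mul_le_mul_of_nonneg_right (abs_sub _ _) (by positivity)
        _ ≤ C₁ := by rw [add_mul]; exact add_le_add b1 b2
  -- inversion
  have hinv : ∀ i : Fin m, |dd n₀ p q i| * (N : ℝ) ^ (r + 1) ≤ C₂ := by
    intro i
    have e1 : dd n₀ p q i = ∑ j, B⁻¹ i j * ∑ i' : Fin m, B j i' * dd n₀ p q i' := by
      have h1 : B⁻¹ * B = 1 := Matrix.nonsing_inv_mul _ (isUnit_iff_ne_zero.mpr hdet)
      have h2 : (B⁻¹).mulVec (B.mulVec (fun i : Fin m => dd n₀ p q i)) =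
          (fun i : Fin m => dd n₀ p q i) := by
        rw [Matrix.mulVec_mulVec, h1, Matrix.one_mulVec]
      have h3 := congrFun h2 i
      rw [← h3]
      rfl
    rw [e1]
    calc |∑ j, B⁻¹ i j * ∑ i' : Fin m, B j i' * dd n₀ p q i'| * (N : ℝ) ^ (r + 1)
        ≤ (∑ j, |B⁻¹ i j * ∑ i' : Fin m, B j i' * dd n₀ p q i'|) * (N : ℝ) ^ (r + 1) :=
          mul_le_mul_of_nonneg_right (Finset.abs_sum_le_sum_abs _ _) (by positivity)
      _ = ∑ j, |B⁻¹ i j| * (|∑ i' : Fin m, B j i' * dd n₀ p q i'| * (N : ℝ) ^ (r + 1)) := by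
          rw [Finset.sum_mul]
          refine Finset.sum_congr rfl (fun j _ => ?_)
          rw [abs_mul]; ring
      _ ≤ ∑ j, |B⁻¹ i j| * C₁ :=
          Finset.sum_le_sum (fun j _ => mul_le_mul_of_nonneg_left (hrow j) (abs_nonneg _))
      _ = (∑ j, |B⁻¹ i j|) * C₁ := by rw [Finset.sum_mul]
      _ ≤ C₂ := by
          refine mul_le_mul_of_nonneg_right ?_ hC₁0
          exact Finset.single_le_sum (f := fun i => ∑ j, |B⁻¹ i j|)
            (fun i _ => Finset.sum_nonneg (fun j _ => abs_nonneg _)) (Finset.mem_univ i)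
  -- conclusion
  rw [dlt_eq_dd hn0 p q (show r + 1 ≤ m by omega), abs_mul, abs_of_pos (pow_pos hn0' (r + 1))]
  calc (n₀ : ℝ) ^ (r + 1) * |∑ i ∈ range m, (((r + 1).choose (i + 1) : ℕ) : ℝ) * dd n₀ p q i|
      ≤ (N : ℝ) ^ (r + 1) * |∑ i ∈ range m, (((r + 1).choose (i + 1) : ℕ) : ℝ) *
          dd n₀ p q i| :=
        mul_le_mul_of_nonneg_right (pow_le_pow_left₀ hn0'.le hnN _) (abs_nonneg _)
    _ ≤ (N : ℝ) ^ (r + 1) * ∑ i ∈ range m, |(((r + 1).choose (i + 1) : ℕ) : ℝ) *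
          dd n₀ p q i| :=
        mul_le_mul_of_nonneg_left (Finset.abs_sum_le_sum_abs _ _) (by positivity)
    _ = ∑ i ∈ range m, (((r + 1).choose (i + 1) : ℕ) : ℝ) *
          (|dd n₀ p q i| * (N : ℝ) ^ (r + 1)) := by
        rw [Finset.mul_sum]
        refine Finset.sum_congr rfl (fun i _ => ?_)
        rw [abs_mul, abs_of_nonneg (show (0 : ℝ) ≤ (((r + 1).choose (i + 1) : ℕ) : ℝ) by
          positivity)]
        ring
    _ ≤ ∑ i ∈ range m, (2 ^ (r + 1) * C₂) := by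
        refine Finset.sum_le_sum (fun i hi => ?_)
        rw [Finset.mem_range] at hi
        have c1 : (((r + 1).choose (i + 1) : ℕ) : ℝ) ≤ 2 ^ (r + 1) := by
          exact_mod_cast Nat.choose_le_two_pow (r + 1) (i + 1)
        exact mul_le_mul c1 (hinv ⟨i, hi⟩) (by positivity) (by positivity)
    _ = m * (2 ^ (r + 1) * C₂) := by simp

end Pool.Agent.DL
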