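import Pool.Agent.Helper21.DL.Transition
import Pool.Agent.Helper19.DL.Mean

/-!
# DL-17: exact periodicity in one more degree (final form)
-/

namespace Pool.Agent.DL

theorem transition (m k r : ℕ) (hr : r < m) (C₀ : ℝ) : ∃ K : ℝ, 0 < K ∧
    ∀ (N n₀ H : ℕ), 1 ≤ N → N ≤ 4 * n₀ → n₀ + H ≤ N → (H : ℝ) ^ (m + 1) ≤ C₀ * (N : ℝ) ^ (m - r) →
      ∀ S ⊆ Finset.Ioc n₀ (n₀ + H), ∀ a : ℕ → ℝ, (∀ j, 0 ≤ a j) → ∀ R : ℝ, (tri m : ℝ) ≤ R → 1 ≤ R →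
        QQ (tri m) (ex k r m) (bb ((N : ℝ) ^ k) R r m) S (fun j => (a j : ℂ)) *
            ENNReal.ofReal (R * (N : ℝ) ^ k) ≤
          ENNReal.ofReal K *
            QQ (tri m) (ex k (r + 1) m) (bb ((N : ℝ) ^ k) R (r + 1) m) S (fun j => (a j : ℂ)) :=
  transition_of (fun hs e b hb S a => QQ_expand hs e b hb S a)
    (fun hs e b hb S a c => QQ_shift hs e b hb S a c) m k r hr C₀

end Pool.Agent.DL
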